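import Pool.Agent.W890.SF.Stm

namespace Pool.Agent.W764.SAM

open Finset Pool.Agent.W890.SF

theorem pml : S_PML := by
  classical
  intro k hk n hkn hdvd
  have hnk : 1 ≤ n / k := Nat.div_pos hkn (by omega)
  have hnkn : n / k ≤ n := Nat.div_le_self n k
  obtain ⟨S, -, hS⟩ := Finset.exists_subset_card_eq (s := (univ : Finset (Fin n))) (n := n / k - 1)
    (by rw [Finset.card_univ, Fintype.card_fin]; omega)
  refine ⟨(powersetCard k univ).filter (fun e => ¬ Disjoint e S), ?_, ?_, ?_⟩
  · intro e he
    exact (mem_powersetCard.1 (mem_filter.1 he).1).2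
  · intro v
    rw [tsub_le_iff_right]
    have h0 : (powersetCard (k - 1) ((univ : Finset (Fin n)).erase v)).card = (n - 1).choose (k - 1) := by
      rw [card_powersetCard, card_erase_of_mem (mem_univ v), card_univ, Fintype.card_fin]
    rw [← h0]
    rw [← card_filter_add_card_filter_not (s := powersetCard (k - 1) ((univ : Finset (Fin n)).erase v))
      (fun T => ¬ Disjoint (insert v T) S)]
    have hvT : ∀ T ∈ powersetCard (k - 1) ((univ : Finset (Fin n)).erase v), v ∉ T := by
      intro T hT hv
      exact absurd ((mem_powersetCard.1 hT).1 hv) (by simp)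
    refine add_le_add ?_ ?_
    · unfold dg
      refine card_le_card_of_injOn (fun T => insert v T) ?_ ?_
      · intro T hT
        have hT' := mem_filter.1 (mem_coe.1 hT)
        have hv := hvT T hT'.1
        have hc := (mem_powersetCard.1 hT'.1).2
        apply mem_coe.2
        apply mem_filter.2
        refine ⟨mem_filter.2 ⟨mem_powersetCard.2 ⟨subset_univ _, ?_⟩, hT'.2⟩, mem_insert_self _ _⟩
        rw [card_insert_of_notMem hv, hc]; omega
      · intro T hT T' hT' heq
        have hv := hvT T (mem_filter.1 (mem_coe.1 hT)).1
        have hv' := hvT T' (mem_filter.1 (mem_coe.1 hT')).1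
        have := congrArg (fun A => A.erase v) heq
        simpa [erase_insert hv, erase_insert hv'] using this
    · by_cases hvS : v ∈ S
      · have : (filter (fun T => ¬ ¬ Disjoint (insert v T) S)
            (powersetCard (k - 1) ((univ : Finset (Fin n)).erase v))) = ∅ := by
          apply filter_eq_empty_iff.2
          intro T _ h
          exact h (fun hd => (Finset.disjoint_left.1 hd (mem_insert_self v T)) hvS)
        rw [this]; simp
      · have hcard : (powersetCard (k - 1) ((Sᶜ).erase v)).card = (n - n / k).choose (k - 1) := by
          rw [card_powersetCard, card_erase_of_mem (by simpa using hvS), card_compl,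
            Fintype.card_fin, hS]
          congr 1
          omega
        rw [← hcard]
        apply card_le_card
        intro T hT
        obtain ⟨hT1, hT2⟩ := mem_filter.1 hT
        obtain ⟨hT3, hT4⟩ := mem_powersetCard.1 hT1
        rw [not_not] at hT2
        refine mem_powersetCard.2 ⟨?_, hT4⟩
        intro x hx
        refine mem_erase.2 ⟨(mem_erase.1 (hT3 hx)).1, ?_⟩
        rw [mem_compl]
        exact Finset.disjoint_left.1 hT2 (mem_insert_of_mem hx)
  · rintro ⟨M, hMH, hM, hMc⟩
    have hex : ∀ e ∈ M, ∃ x, x ∈ e ∧ x ∈ S := by
      intro e he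
      have := (mem_filter.1 (hMH he)).2
      rw [Finset.not_disjoint_iff] at this
      exact this
    haveI : Nonempty (Fin n) := ⟨⟨0, by omega⟩⟩
    choose! f hf using hex
    have hle : M.card ≤ S.card := by
      refine card_le_card_of_injOn f (fun e he => (hf e he).2) ?_
      intro e he e' he' heq
      by_contra hne
      have hd := hM e he e' he' hne
      exact Finset.disjoint_left.1 hd (hf e he).1 (heq ▸ (hf e' he').1)
    omega

end Pool.Agent.W764.SAM
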